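import Pool.Agent.Helper54.DT.StmtsS

set_option autoImplicit false

namespace Pool.Agent.Helper7.DCT

open Pool.Agent.Helper54.DT Pool.Agent.Helper54.ETR Pool.Agent.Helper54.Poly

theorem st_PTI (hPTH : ST_PTH) (hPTC : ST_PTC) : ST_PTI := by
  intro P hP α _ n wb kl lin f0 f1 m0 m1 hn hwb hkl hlin hf0 hf1 hm0 hm1
  obtain ⟨c1, c2, c3⟩ := hPTC P hP α kl lin f0 hkl hlin hf0
  obtain ⟨-, -, c4⟩ := hPTC P hP α kl lin f1 hkl hlin hf1
  have hM : PT (fun a => n a + 2) := PT.add hn (PT.const 2)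
  have hR : PT (fun a => (lin a).length + 1 + 2 * (n a + 1)) :=
    PT.add (PT.add (PT.length hlin) (PT.const 1)) (PT.mul (PT.const 2) (PT.add hn (PT.const 1)))
  have ht0 : PT (fun z : α × ℕ => decide (rowK (kl z.1) z.2 = 0) || (wb z.1).getD (2 * z.2) false) :=
    PT.or (PT.eqN c2 (PT.const 0))
      (PT.getD (PT.mul (PT.const 2) PT.id.snd) (hwb.comp PT.id.fst) (PT.const false))
  have ht1 : PT (fun z : α × ℕ =>
      decide (rowK (kl z.1) z.2 = 0) || (wb z.1).getD (2 * z.2 + 1) false) :=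
    PT.or (PT.eqN c2 (PT.const 0))
      (PT.getD (PT.add (PT.mul (PT.const 2) PT.id.snd) (PT.const 1)) (hwb.comp PT.id.fst)
        (PT.const false))
  have h0 := hPTH α (fun a => n a + 2) (fun a => (lin a).length + 1 + 2 * (n a + 1))
    (fun a r m => rowC oK ((lin a).map fun p l1 l2 => P (p, (l1, l2))) r m)
    (fun a r => rowK (kl a) r)
    (fun a r => decide (rowK (kl a) r = 0) || (wb a).getD (2 * r) false)
    (fun a i j k => cf3 oK (fun l1 l2 => P (f0 a, (l1, l2))) i j k) m0 0 hM hR c1 c2 ht0 c3 hm0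
  have h1 := hPTH α (fun a => n a + 2) (fun a => (lin a).length + 1 + 2 * (n a + 1))
    (fun a r m => rowC oK ((lin a).map fun p l1 l2 => P (p, (l1, l2))) r m)
    (fun a r => rowK (kl a) r)
    (fun a r => decide (rowK (kl a) r = 0) || (wb a).getD (2 * r + 1) false)
    (fun a i j k => cf3 oK (fun l1 l2 => P (f1 a, (l1, l2))) i j k) m1 1 hM hR c1 c2 ht1 c4 hm1
  exact PT.append h0 h1

end Pool.Agent.Helper7.DCT
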